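import Mathlib

set_option autoImplicit false

/-!
# A `(2,3)`-generated infinite group without proper subgroups of finite index

The group is generated by two permutations `hP` (of order three) and `aP` (of order two) of
`Fin 15 × ℕ`. The map `aP` exchanges the even half of the fibre over `0` with the fibre over `13`
and the odd half of the fibre over `0` with the fibre over `6` (so it lies in a copy of Thompson's
group `V`). We show that a normal subgroup of finite index contains both generators.
-/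

namespace Pool.Agent.Work.MP_a8e1ec_co

open Equiv

/-- The set on which the group acts. -/
abbrev Om : Type := Fin 15 × ℕ

/-- The permutation of order three of the base. -/
def hF : Fin 15 → Fin 15 := ![1, 2, 0, 5, 7, 6, 3, 8, 4, 11, 13, 12, 9, 14, 10]
/-- The inverse of `hF`. -/
def hG : Fin 15 → Fin 15 := ![2, 0, 1, 6, 8, 3, 5, 4, 7, 12, 14, 9, 11, 10, 13]
/-- The action of the involution on the base, away from `0`, `6`, `13`. -/
def aF : Fin 15 → Fin 15 := ![0, 3, 4, 1, 2, 9, 6, 10, 11, 5, 7, 8, 14, 13, 12]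
/-- A three-cycle of the base. -/
def cF : Fin 15 → Fin 15 := ![0, 1, 2, 3, 4, 5, 6, 7, 12, 9, 8, 11, 10, 13, 14]
/-- The inverse of `cF`. -/
def cG : Fin 15 → Fin 15 := ![0, 1, 2, 3, 4, 5, 6, 7, 10, 9, 12, 11, 8, 13, 14]

lemma hG_hF (r : Fin 15) : hG (hF r) = r := by revert r; decide
lemma hF_hG (r : Fin 15) : hF (hG r) = r := by revert r; decide
lemma cG_cF (r : Fin 15) : cG (cF r) = r := by revert r; decide
lemma cF_cG (r : Fin 15) : cF (cG r) = r := by revert r; decide

/-- The generator of order three. -/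
def hP : Perm Om where
  toFun x := (hF x.1, x.2)
  invFun x := (hG x.1, x.2)
  left_inv x := by simp [hG_hF]
  right_inv x := by simp [hF_hG]

/-- A three-cycle of fibres. -/
def cP : Perm Om where
  toFun x := (cF x.1, x.2)
  invFun x := (cG x.1, x.2)
  left_inv x := by simp [cG_cF]
  right_inv x := by simp [cF_cG]

/-- The involution, as a function. -/
def aFun (x : Om) : Om :=
  if x.1 = 0 then (if x.2 % 2 = 0 then (13, x.2 / 2) else (6, x.2 / 2))
  else if x.1 = 13 then (0, 2 * x.2)
  else if x.1 = 6 then (0, 2 * x.2 + 1)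
  else (aF x.1, x.2)

lemma aFun_zero_even (n : ℕ) : aFun (0, 2 * n) = (13, n) := by
  simp [aFun]
lemma aFun_zero_odd (n : ℕ) : aFun (0, 2 * n + 1) = (6, n) := by
  have h1 : (2 * n + 1) % 2 = 1 := by omega
  have h2 : (2 * n + 1) / 2 = n := by omega
  simp [aFun, h1, h2]
lemma aFun_thirteen (n : ℕ) : aFun (13, n) = (0, 2 * n) := by
  simp [aFun]
lemma aFun_six (n : ℕ) : aFun (6, n) = (0, 2 * n + 1) := by
  simp [aFun]
lemma aFun_other (r : Fin 15) (n : ℕ) (h0 : r ≠ 0) (h6 : r ≠ 6) (h13 : r ≠ 13) :
    aFun (r, n) = (aF r, n) := by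
  simp [aFun, h0, h6, h13]

lemma aF_other (r : Fin 15) (h0 : r ≠ 0) (h6 : r ≠ 6) (h13 : r ≠ 13) :
    aF r ≠ 0 ∧ aF r ≠ 6 ∧ aF r ≠ 13 ∧ aF (aF r) = r := by
  revert r; decide

lemma aFun_invol : Function.Involutive aFun := by
  rintro ⟨r, n⟩
  by_cases h0 : r = 0
  · subst h0
    obtain ⟨m, hm | hm⟩ : ∃ m, n = 2 * m ∨ n = 2 * m + 1 := ⟨n / 2, by omega⟩
    · rw [hm, aFun_zero_even, aFun_thirteen]
    · rw [hm, aFun_zero_odd, aFun_six]
  by_cases h6 : r = 6
  · subst h6; rw [aFun_six, aFun_zero_odd]
  by_cases h13 : r = 13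
  · subst h13; rw [aFun_thirteen, aFun_zero_even]
  obtain ⟨g0, g6, g13, g⟩ := aF_other r h0 h6 h13
  rw [aFun_other r n h0 h6 h13, aFun_other _ n g0 g6 g13, g]

/-- The generator of order two. -/
def aP : Perm Om := aFun_invol.toPerm

lemma aP_apply (x : Om) : aP x = aFun x := rfl

lemma aP_sq : aP * aP = 1 := by
  ext1 x
  exact aFun_invol x

/-! ### Cones -/

/-- A cone: a fibre and a list of binary digits. -/
abbrev Cone : Type := Fin 15 × List Bool

/-- Prefix a list of binary digits to a natural number. -/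
def pre : List Bool → ℕ → ℕ
  | [], n => n
  | false :: w, n => 2 * pre w n
  | true :: w, n => 2 * pre w n + 1

/-- The points of a cone. -/
def pt (p : Cone) (n : ℕ) : Om := (p.1, pre p.2 n)

/-- The permutation `g` maps the cone `p` to the cone `q` by replacing the digits. -/
def Maps (g : Perm Om) (p q : Cone) : Prop := ∀ n, g (pt p n) = pt q n

lemma Maps.mul {f g : Perm Om} {p q r : Cone} (hg : Maps g p q) (hf : Maps f q r) :
    Maps (f * g) p r := fun n => by rw [Perm.mul_apply, hg n, hf n]

lemma Maps.inv {g : Perm Om} {p q : Cone} (hg : Maps g p q) : Maps g⁻¹ q p := fun n => by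
  rw [Perm.inv_eq_iff_eq, hg n]

/-- Letters: the generators, their inverses, and the three-cycle `cP`. -/
inductive Lt
  | a | h | H | c | C

/-- The permutation of a letter. -/
def Lt.val : Lt → Perm Om
  | .a => aP
  | .h => hP
  | .H => hP⁻¹
  | .c => cP
  | .C => cP⁻¹

/-- The action of the involution on cones (where it does not split the cone). -/
def stepA (r : Fin 15) (w : List Bool) : Option Cone :=
  if r = 0 then
    match w with
    | [] => none
    | false :: v => some (13, v)
    | true :: v => some (6, v)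
  else if r = 13 then some (0, false :: w)
  else if r = 6 then some (0, true :: w)
  else some (aF r, w)

/-- The action of a letter on cones (where it does not split the cone). -/
def Lt.step : Lt → Cone → Option Cone
  | .a, p => stepA p.1 p.2
  | .h, p => some (hF p.1, p.2)
  | .H, p => some (hG p.1, p.2)
  | .c, p => some (cF p.1, p.2)
  | .C, p => some (cG p.1, p.2)

lemma stepA_spec (r : Fin 15) (w : List Bool) (q : Cone) (h : stepA r w = some q) (n : ℕ) :
    aFun (r, pre w n) = pt q n := by
  unfold stepA at h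
  by_cases h0 : r = 0
  · subst h0
    rw [if_pos rfl] at h
    match w, h with
    | false :: v, h =>
      simp only [Option.some.injEq] at h
      subst h
      exact aFun_zero_even _
    | true :: v, h =>
      simp only [Option.some.injEq] at h
      subst h
      exact aFun_zero_odd _
  · rw [if_neg h0] at h
    by_cases h13 : r = 13
    · subst h13
      rw [if_pos rfl] at h
      simp only [Option.some.injEq] at h
      subst h
      exact aFun_thirteen _
    · rw [if_neg h13] at h
      by_cases h6 : r = 6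
      · subst h6
        rw [if_pos rfl] at h
        simp only [Option.some.injEq] at h
        subst h
        exact aFun_six _
      · rw [if_neg h6] at h
        simp only [Option.some.injEq] at h
        subst h
        exact aFun_other r _ h0 h6 h13

lemma Lt.step_spec (l : Lt) (p q : Cone) (h : l.step p = some q) : Maps l.val p q := by
  intro n
  cases l with
  | a => exact stepA_spec p.1 p.2 q h n
  | h =>
    simp only [Lt.step, Option.some.injEq] at h
    subst h; rfl
  | H =>
    simp only [Lt.step, Option.some.injEq] at h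
    subst h; rfl
  | c =>
    simp only [Lt.step, Option.some.injEq] at h
    subst h; rfl
  | C =>
    simp only [Lt.step, Option.some.injEq] at h
    subst h; rfl

/-- The permutation of a word (the last letter is applied first). -/
def val : List Lt → Perm Om
  | [] => 1
  | l :: w => l.val * val w

/-- The action of a word on cones. -/
def run : List Lt → Cone → Option Cone
  | [], p => some p
  | l :: w, p => (run w p).bind l.step

lemma run_spec (w : List Lt) (p q : Cone) (h : run w p = some q) : Maps (val w) p q := by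
  induction w generalizing q with
  | nil =>
    simp only [run, Option.some.injEq] at h
    subst h
    intro n; rfl
  | cons l w ih =>
    simp only [run, Option.bind_eq_some_iff] at h
    obtain ⟨s, hs, hl⟩ := h
    exact (ih s hs).mul (l.step_spec s q hl)

lemma val_append (u v : List Lt) : val (u ++ v) = val u * val v := by
  induction u with
  | nil => simp [val]
  | cons l u ih => simp [val, ih, mul_assoc]

/-! ### The relation `(ha)^51 = 1` and the three-cycle `(ha)^34` -/

/-- The word `(ha)^n`. -/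
def haPow : ℕ → List Lt
  | 0 => []
  | n + 1 => .h :: .a :: haPow n

lemma val_haPow (n : ℕ) : val (haPow n) = (hP * aP) ^ n := by
  induction n with
  | zero => rfl
  | succ n ih =>
    rw [pow_succ', haPow, val, val, ih]
    simp [Lt.val, mul_assoc]

lemma exists_digit (x : Om) : ∃ (b : Bool) (m : ℕ), x = pt (x.1, [b]) m := by
  obtain ⟨m, hm | hm⟩ : ∃ m, x.2 = 2 * m ∨ x.2 = 2 * m + 1 := ⟨x.2 / 2, by omega⟩
  · exact ⟨false, m, Prod.ext rfl hm⟩
  · exact ⟨true, m, Prod.ext rfl hm⟩

lemma run51 : ∀ (r : Fin 15) (b : Bool), run (haPow 51) (r, [b]) = some (r, [b]) := by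
  decide +kernel

lemma run34 : ∀ (r : Fin 15) (b : Bool), run (haPow 34) (r, [b]) = some (cF r, [b]) := by
  decide +kernel

lemma ha_pow_51 : (hP * aP) ^ 51 = 1 := by
  ext1 x
  obtain ⟨b, m, hx⟩ := exists_digit x
  rw [← val_haPow, hx]
  exact run_spec _ _ _ (run51 x.1 b) m

lemma ha_pow_34 : (hP * aP) ^ 34 = cP := by
  ext1 x
  obtain ⟨b, m, hx⟩ := exists_digit x
  rw [← val_haPow, hx]
  exact run_spec _ _ _ (run34 x.1 b) m

lemma hP_cube : hP ^ 3 = 1 := by
  ext1 x
  have : ∀ r, hF (hF (hF r)) = r := by decide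
  simp [pow_succ, hP, this]

/-! ### Three-cycles of cones -/

/-- Membership in a cone. -/
def InCone (x : Om) (p : Cone) : Prop := ∃ n, x = pt p n

/-- `s` permutes the three cones `p, q, r` cyclically and fixes all other points. -/
structure IsC3 (s : Perm Om) (p q r : Cone) : Prop where
  m1 : Maps s p q
  m2 : Maps s q r
  m3 : Maps s r p
  fix : ∀ x, ¬ InCone x p → ¬ InCone x q → ¬ InCone x r → s x = x

lemma IsC3.conj {s g : Perm Om} {p q r p' q' r' : Cone} (h : IsC3 s p q r) (hp : Maps g p p')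
    (hq : Maps g q q') (hr : Maps g r r') : IsC3 (g * s * g⁻¹) p' q' r' where
  m1 := hp.inv.mul (h.m1.mul hq) |> fun h => by simpa [mul_assoc] using h
  m2 := hq.inv.mul (h.m2.mul hr) |> fun h => by simpa [mul_assoc] using h
  m3 := hr.inv.mul (h.m3.mul hp) |> fun h => by simpa [mul_assoc] using h
  fix x hxp hxq hxr := by
    have key : ∀ {c c' : Cone}, Maps g c c' → ¬ InCone x c' → ¬ InCone (g⁻¹ x) c := by
      rintro c c' hc hx ⟨n, hn⟩
      apply hx
      refine ⟨n, ?_⟩
      rw [← hc n, ← hn]
      simp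
    rw [Perm.mul_apply, Perm.mul_apply, h.fix _ (key hp hxp) (key hq hxq) (key hr hxr)]
    simp

lemma IsC3.inv {s : Perm Om} {p q r : Cone} (h : IsC3 s p q r) : IsC3 s⁻¹ p r q where
  m1 := h.m3.inv
  m2 := h.m2.inv
  m3 := h.m1.inv
  fix x hxp hxr hxq := by
    rw [Perm.inv_eq_iff_eq, h.fix x hxp hxq hxr]

/-- Comparability of lists. -/
def cmp : List Bool → List Bool → Bool
  | [], _ => true
  | _ :: _, [] => true
  | a :: u, b :: v => (a == b) && cmp u v

lemma cmp_of_pre_eq : ∀ (u v : List Bool) (n m : ℕ), pre u n = pre v m → cmp u v = true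
  | [], _, _, _, _ => by unfold cmp; rfl
  | _ :: _, [], _, _, _ => by unfold cmp; rfl
  | false :: u, false :: v, n, m, h => by
    simp only [pre] at h
    simp only [cmp, beq_self_eq_true, Bool.true_and]
    exact cmp_of_pre_eq u v n m (by omega)
  | true :: u, true :: v, n, m, h => by
    simp only [pre] at h
    simp only [cmp, beq_self_eq_true, Bool.true_and]
    exact cmp_of_pre_eq u v n m (by omega)
  | false :: u, true :: v, n, m, h => by
    simp only [pre] at h
    omega
  | true :: u, false :: v, n, m, h => by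
    simp only [pre] at h
    omega

/-- Disjointness of cones. -/
def dj (p q : Cone) : Bool := (p.1 != q.1) || !(cmp p.2 q.2)

lemma dj_spec {p q : Cone} (h : dj p q = true) {x : Om} (hp : InCone x p) : ¬ InCone x q := by
  rintro ⟨m, hm⟩
  obtain ⟨n, hn⟩ := hp
  have h1 : pt p n = pt q m := hn.symm.trans hm
  have h2 : p.1 = q.1 := congrArg (fun y : Om => y.1) h1
  have h3 : pre p.2 n = pre q.2 m := congrArg (fun y : Om => y.2) h1
  have h4 := cmp_of_pre_eq _ _ _ _ h3
  unfold dj at h
  simp [h2, h4] at h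

/-- The action of a three-cycle of cones on cones. -/
def act3 (t : Cone × Cone × Cone) (z : Cone) : Option Cone :=
  if z = t.1 then some t.2.1
  else if z = t.2.1 then some t.2.2
  else if z = t.2.2 then some t.1
  else if dj z t.1 && dj z t.2.1 && dj z t.2.2 then some z
  else none

lemma act3_spec {s : Perm Om} {t : Cone × Cone × Cone} (h : IsC3 s t.1 t.2.1 t.2.2)
    {z z' : Cone} (hz : act3 t z = some z') : Maps s z z' := by
  unfold act3 at hz
  split_ifs at hz with h1 h2 h3 h4
  · simp only [Option.some.injEq] at hz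
    subst h1 hz; exact h.m1
  · simp only [Option.some.injEq] at hz
    subst h2 hz; exact h.m2
  · simp only [Option.some.injEq] at hz
    subst h3 hz; exact h.m3
  · simp only [Option.some.injEq] at hz
    subst hz
    simp only [Bool.and_eq_true] at h4
    intro n
    have hx : InCone (pt z n) z := ⟨n, rfl⟩
    exact h.fix _ (dj_spec h4.1.1 hx) (dj_spec h4.1.2 hx) (dj_spec h4.2 hx)

/-- The action of a product of three-cycles on cones. -/
def prodAct : List (Cone × Cone × Cone) → Cone → Option Cone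
  | [], z => some z
  | t :: ts, z => (prodAct ts z).bind (act3 t)

lemma prodAct_spec : ∀ (ss : List (Perm Om)) (ts : List (Cone × Cone × Cone)),
    List.Forall₂ (fun s t => IsC3 s t.1 t.2.1 t.2.2) ss ts → ∀ z z' : Cone,
    prodAct ts z = some z' → Maps ss.prod z z'
  | _, _, .nil, z, z', h => by
    simp only [prodAct, Option.some.injEq] at h
    subst h
    intro n; rfl
  | _, _, .cons hs hss, z, z', h => by
    simp only [prodAct, Option.bind_eq_some_iff] at h
    obtain ⟨y, hy, hl⟩ := h
    rw [List.prod_cons]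
    exact (prodAct_spec _ _ hss z y hy).mul (act3_spec hs hl)

/-! ### The words -/

/-- The group generated by the two permutations. -/
def Ga : Subgroup (Perm Om) := Subgroup.closure {hP, aP}

lemma hP_mem : hP ∈ Ga := Subgroup.subset_closure (by simp)
lemma aP_mem : aP ∈ Ga := Subgroup.subset_closure (by simp)
lemma cP_mem : cP ∈ Ga := by
  rw [← ha_pow_34]
  exact Ga.pow_mem (Ga.mul_mem hP_mem aP_mem) _

lemma val_mem (w : List Lt) : val w ∈ Ga := by
  induction w with
  | nil => exact Ga.one_mem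
  | cons l w ih =>
    refine Ga.mul_mem ?_ ih
    cases l with
    | a => exact aP_mem
    | h => exact hP_mem
    | H => exact Ga.inv_mem hP_mem
    | c => exact cP_mem
    | C => exact Ga.inv_mem cP_mem

/-- A conjugating word. -/
def wg : List Lt := [.H, .a, .h, .a, .h, .c, .a, .h, .a, .H, .a, .h]
/-- The contracting word. -/
def wt : List Lt := [.a, .H, .a, .h, .a, .H, .a, .c, .H, .a, .H, .a, .h, .c, .a, .H, .a, .h, .a, .H, .a, .h]
/-- Conjugating words. -/
def w1 : List Lt := [.a, .H, .a, .h, .c, .H, .a, .h, .a, .h, .a, .H, .a, .H, .a, .c, .h, .a, .H, .a, .h]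
@[inherit_doc w1] def w2 : List Lt := [.a, .C, .h, .a, .H, .a, .h, .c, .a, .h, .c, .a, .h, .a, .H, .a, .H, .a]
@[inherit_doc w1] def w3 : List Lt := [.c, .a, .h, .a, .H, .a, .h, .a, .h, .c, .a, .h, .a, .H, .a, .H, .a]
@[inherit_doc w1] def w4 : List Lt := [.a, .C, .h, .a, .h, .C, .a, .H, .a, .h, .a, .H, .a, .H, .a, .h, .a, .h, .a]
@[inherit_doc w1] def w5 : List Lt := [.a, .h, .a, .h, .a, .h, .a, .h, .a, .h, .a, .h, .c, .a, .h, .a, .H, .a, .H, .a, .H, .a, .h, .c]
@[inherit_doc w1] def w6 : List Lt := [.a, .h, .a, .h, .a, .h, .c, .a, .h, .a, .H, .a, .c, .H, .a, .h, .c, .a, .h, .a, .h]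

lemma inCone_root {x : Om} {r : Fin 15} (h : x.1 = r) : InCone x (r, []) := ⟨x.2, Prod.ext h rfl⟩

lemma isC3_c : IsC3 cP (8, []) (12, []) (10, []) where
  m1 := fun _ => rfl
  m2 := fun _ => rfl
  m3 := fun _ => rfl
  fix x h8 h12 h10 := by
    have key : ∀ r : Fin 15, r ≠ 8 → r ≠ 12 → r ≠ 10 → cF r = r := by decide
    exact Prod.ext (key x.1 (fun h => h8 (inCone_root h)) (fun h => h12 (inCone_root h))
      (fun h => h10 (inCone_root h))) rfl

/-- The conjugate of `cP` by `wg`. -/
def rP : Perm Om := val wg * cP * (val wg)⁻¹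

lemma isC3_r : IsC3 rP (1, []) (2, [false]) (10, []) :=
  isC3_c.conj (run_spec _ _ _ (by decide +kernel)) (run_spec _ _ _ (by decide +kernel))
    (run_spec _ _ _ (by decide +kernel))

/-- The commutator of `cP` and `rP`. -/
def kP : Perm Om := cP⁻¹ * rP * cP * rP⁻¹

/-- A partition of `Om` into cones, for evaluating products of three-cycles. -/
lemma exists_part (x : Om) : (∃ b, x.1 ≤ 2 ∧ InCone x (x.1, [b])) ∨ (2 < x.1 ∧ InCone x (x.1, [])) := by
  by_cases h : x.1 ≤ 2
  · left
    obtain ⟨b, m, hx⟩ := exists_digit x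
    exact ⟨b, h, m, hx⟩
  · right
    exact ⟨not_le.1 h, inCone_root rfl⟩

lemma kP_prod : kP = [cP⁻¹, rP, cP, rP⁻¹].prod := by
  simp [kP, mul_assoc]

lemma kP_forall : List.Forall₂ (fun (s : Perm Om) (t : Cone × Cone × Cone) =>
    IsC3 s t.1 t.2.1 t.2.2) [cP⁻¹, rP, cP, rP⁻¹]
    [((8, []), (10, []), (12, [])), ((1, []), (2, [false]), (10, [])),
      ((8, []), (12, []), (10, [])), ((1, []), (10, []), (2, [false]))] :=
  .cons isC3_c.inv (.cons isC3_r (.cons isC3_c (.cons isC3_r.inv .nil)))

lemma kP_maps {z z' : Cone} (h : prodAct [((8, []), (10, []), (12, [])),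
    ((1, []), (2, [false]), (10, [])), ((8, []), (12, []), (10, [])),
    ((1, []), (10, []), (2, [false]))] z = some z') : Maps kP z z' := by
  rw [kP_prod]
  exact prodAct_spec _ _ kP_forall z z' h

lemma isC3_k : IsC3 kP (1, []) (10, []) (12, []) where
  m1 := kP_maps (by decide +kernel)
  m2 := kP_maps (by decide +kernel)
  m3 := kP_maps (by decide +kernel)
  fix x h1 h10 h12 := by
    have n1 : x.1 ≠ 1 := fun h => h1 (inCone_root h)
    have n10 : x.1 ≠ 10 := fun h => h10 (inCone_root h)
    have n12 : x.1 ≠ 12 := fun h => h12 (inCone_root h)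
    rcases exists_part x with ⟨b, hx, n, hn⟩ | ⟨hx, n, hn⟩
    · have key : ∀ (r : Fin 15) (b : Bool), r ≤ 2 → r ≠ 1 → prodAct [((8, []), (10, []), (12, [])),
          ((1, []), (2, [false]), (10, [])), ((8, []), (12, []), (10, [])),
          ((1, []), (10, []), (2, [false]))] (r, [b]) = some (r, [b]) := by decide +kernel
      rw [hn]
      exact kP_maps (key x.1 b hx n1) n
    · have key : ∀ (r : Fin 15), 2 < r → r ≠ 10 → r ≠ 12 → prodAct [((8, []), (10, []), (12, [])),
          ((1, []), (2, [false]), (10, [])), ((8, []), (12, []), (10, [])),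
          ((1, []), (10, []), (2, [false]))] (r, []) = some (r, []) := by decide +kernel
      rw [hn]
      exact kP_maps (key x.1 hx n10 n12) n

lemma isC3_w1 : IsC3 (val w1 * kP⁻¹ * (val w1)⁻¹) (5, []) (6, []) (3, []) :=
  isC3_k.inv.conj (run_spec _ _ _ (by decide +kernel)) (run_spec _ _ _ (by decide +kernel))
    (run_spec _ _ _ (by decide +kernel))
lemma isC3_w2 : IsC3 (val w2 * kP * (val w2)⁻¹) (8, []) (4, []) (7, []) :=
  isC3_k.conj (run_spec _ _ _ (by decide +kernel)) (run_spec _ _ _ (by decide +kernel))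
    (run_spec _ _ _ (by decide +kernel))
lemma isC3_w3 : IsC3 (val w3 * kP * (val w3)⁻¹) (12, []) (9, []) (11, []) :=
  isC3_k.conj (run_spec _ _ _ (by decide +kernel)) (run_spec _ _ _ (by decide +kernel))
    (run_spec _ _ _ (by decide +kernel))
lemma isC3_w4 : IsC3 (val w4 * kP * (val w4)⁻¹) (10, []) (13, []) (14, []) :=
  isC3_k.conj (run_spec _ _ _ (by decide +kernel)) (run_spec _ _ _ (by decide +kernel))
    (run_spec _ _ _ (by decide +kernel))
lemma isC3_w5 : IsC3 (val w5 * kP * (val w5)⁻¹) (2, [false]) (0, [false]) (1, [false]) :=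
  isC3_k.conj (run_spec _ _ _ (by decide +kernel)) (run_spec _ _ _ (by decide +kernel))
    (run_spec _ _ _ (by decide +kernel))
lemma isC3_w6 : IsC3 (val w6 * kP * (val w6)⁻¹) (2, [true]) (0, [true]) (1, [true]) :=
  isC3_k.conj (run_spec _ _ _ (by decide +kernel)) (run_spec _ _ _ (by decide +kernel))
    (run_spec _ _ _ (by decide +kernel))

/-- The triples of cones of the six three-cycles whose product is `hP`. -/
def tris : List (Cone × Cone × Cone) :=
  [((5, []), (6, []), (3, [])), ((8, []), (4, []), (7, [])), ((12, []), (9, []), (11, [])),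
    ((10, []), (13, []), (14, [])), ((2, [false]), (0, [false]), (1, [false])),
    ((2, [true]), (0, [true]), (1, [true]))]

/-- The six three-cycles. -/
def facs : List (Perm Om) :=
  [val w1 * kP⁻¹ * (val w1)⁻¹, val w2 * kP * (val w2)⁻¹, val w3 * kP * (val w3)⁻¹,
    val w4 * kP * (val w4)⁻¹, val w5 * kP * (val w5)⁻¹, val w6 * kP * (val w6)⁻¹]

lemma facs_tris : List.Forall₂ (fun (s : Perm Om) (t : Cone × Cone × Cone) =>
    IsC3 s t.1 t.2.1 t.2.2) facs tris :=
  .cons isC3_w1 (.cons isC3_w2 (.cons isC3_w3 (.cons isC3_w4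
    (.cons isC3_w5 (.cons isC3_w6 .nil)))))

lemma tris_small : ∀ (r : Fin 15) (b : Bool), r ≤ 2 →
    prodAct tris (r, [b]) = some (hF r, [b]) := by
  decide +kernel

lemma tris_big : ∀ (r : Fin 15), 2 < r → prodAct tris (r, []) = some (hF r, []) := by
  decide +kernel

lemma hP_eq : hP = facs.prod := by
  ext1 x
  rcases exists_part x with ⟨b, hx, n, hn⟩ | ⟨hx, n, hn⟩
  · rw [hn]
    exact (prodAct_spec _ _ facs_tris _ _ (tris_small x.1 b hx) n).symm
  · rw [hn]
    exact (prodAct_spec _ _ facs_tris _ _ (tris_big x.1 hx) n).symm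

/-! ### The contracting element -/

lemma wt_maps (r : Fin 15) (hr : r = 8 ∨ r = 12 ∨ r = 10 ∨ r = 0) :
    ∃ w : List Bool, Maps (val wt) (r, []) (0, w) := by
  rcases hr with rfl | rfl | rfl | rfl
  · exact ⟨[true, true], run_spec _ _ _ (by decide +kernel)⟩
  · exact ⟨[false, false], run_spec _ _ _ (by decide +kernel)⟩
  · exact ⟨[true, false, false, false], run_spec _ _ _ (by decide +kernel)⟩
  · exact ⟨[false, true, true, true], run_spec _ _ _ (by decide +kernel)⟩

lemma wt_root (x : Om) (hx : x.1 = 8 ∨ x.1 = 12 ∨ x.1 = 10 ∨ x.1 = 0) : (val wt x).1 = 0 := by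
  obtain ⟨w, hw⟩ := wt_maps x.1 hx
  have := hw x.2
  have hx' : pt (x.1, []) x.2 = x := rfl
  rw [hx'] at this
  rw [this]; rfl

lemma wt_pow_root (m : ℕ) (hm : 0 < m) (x : Om) (hx : x.1 = 8 ∨ x.1 = 12 ∨ x.1 = 10) :
    ((val wt ^ m) x).1 = 0 := by
  obtain ⟨m, rfl⟩ : ∃ k, m = k + 1 := ⟨m - 1, by omega⟩
  clear hm
  induction m with
  | zero =>
    rw [zero_add, pow_one]
    exact wt_root x (by tauto)
  | succ m ih =>
    rw [pow_succ', Perm.mul_apply]
    exact wt_root _ (Or.inr (Or.inr (Or.inr ih)))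

/-- The conjugate of `cP` by a power of the contracting element moves only points over `0`. -/
lemma conj_fix (m : ℕ) (hm : 0 < m) (y : Om) (hy : y.1 ≠ 0) :
    (val wt ^ m * cP * (val wt ^ m)⁻¹) y = y := by
  set z := (val wt ^ m)⁻¹ y with hz
  have hzy : (val wt ^ m) z = y := by rw [hz]; simp
  have hc : cP z = z := by
    apply isC3_c.fix
    · rintro ⟨n, hn⟩
      exact hy (by rw [← hzy]; exact wt_pow_root m hm z (by rw [hn]; exact Or.inl rfl))
    · rintro ⟨n, hn⟩
      exact hy (by rw [← hzy]; exact wt_pow_root m hm z (by rw [hn]; exact Or.inr (Or.inl rfl)))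
    · rintro ⟨n, hn⟩
      exact hy (by rw [← hzy]; exact wt_pow_root m hm z (by rw [hn]; exact Or.inr (Or.inr rfl)))
  rw [Perm.mul_apply, Perm.mul_apply, ← hz, hc, hzy]

lemma c_fix (y : Om) (hy : y.1 = 0) : cP y = y := by
  apply isC3_c.fix <;> rintro ⟨n, hn⟩ <;> rw [hn] at hy <;> simp [pt] at hy

lemma r_fix (y : Om) (hy : y.1 = 0) : rP y = y := by
  apply isC3_r.fix <;> rintro ⟨n, hn⟩ <;> rw [hn] at hy <;> simp [pt] at hy

/-- **Key proposition.** A subgroup which is normalised by the group and contains a power of each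
of its elements contains both generators. -/
theorem generators_mem (N : Subgroup (Perm Om))
    (hconj : ∀ g ∈ Ga, ∀ n ∈ N, g * n * g⁻¹ ∈ N)
    (hpow : ∀ g ∈ Ga, ∃ m : ℕ, 0 < m ∧ g ^ m ∈ N) : hP ∈ N ∧ aP ∈ N := by
  obtain ⟨m, hm, htm⟩ := hpow (val wt) (val_mem wt)
  have hrm : rP ∈ Ga := Ga.mul_mem (Ga.mul_mem (val_mem _) cP_mem) (Ga.inv_mem (val_mem _))
  set T := val wt ^ m with hT
  set x := T * cP * T⁻¹ with hx
  have hxc : Commute x cP := by
    apply Perm.Disjoint.commute
    intro y
    by_cases hy : y.1 = 0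
    · exact Or.inr (c_fix y hy)
    · exact Or.inl (conj_fix m hm y hy)
  have hxr : Commute x rP := by
    apply Perm.Disjoint.commute
    intro y
    by_cases hy : y.1 = 0
    · exact Or.inr (r_fix y hy)
    · exact Or.inl (conj_fix m hm y hy)
  have hu : x * cP⁻¹ ∈ N := by
    have h1 : x * cP⁻¹ = T * (cP * T⁻¹ * cP⁻¹) := by rw [hx]; group
    rw [h1]
    exact N.mul_mem htm (hconj cP cP_mem _ (N.inv_mem htm))
  have hk : kP ∈ N := by
    have h2 : kP = (x * cP⁻¹) * (rP * (x * cP⁻¹)⁻¹ * rP⁻¹) := by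
      have h3 : Commute x (cP⁻¹ * rP * cP) := (hxc.inv_right.mul_right hxr).mul_right hxc
      have h4 : (x * cP⁻¹) * (rP * (x * cP⁻¹)⁻¹ * rP⁻¹) =
          x * (cP⁻¹ * rP * cP) * x⁻¹ * rP⁻¹ := by group
      rw [h4, h3.eq, kP]
      group
    rw [h2]
    exact N.mul_mem hu (hconj rP hrm _ (N.inv_mem hu))
  have hh : hP ∈ N := by
    rw [hP_eq]
    apply Subgroup.list_prod_mem
    intro y hy
    simp only [facs, List.mem_cons, List.not_mem_nil, or_false] at hy
    rcases hy with rfl | rfl | rfl | rfl | rfl | rfl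
    · exact hconj _ (val_mem _) _ (N.inv_mem hk)
    · exact hconj _ (val_mem _) _ hk
    · exact hconj _ (val_mem _) _ hk
    · exact hconj _ (val_mem _) _ hk
    · exact hconj _ (val_mem _) _ hk
    · exact hconj _ (val_mem _) _ hk
  refine ⟨hh, ?_⟩
  -- modulo `N` the relation `(ha)^51 = 1` becomes `a^51 = 1`
  have key : ∀ n : ℕ, (hP * aP) ^ n * (aP ^ n)⁻¹ ∈ N := by
    intro n
    induction n with
    | zero => simp
    | succ n ih =>
      have h5 : (hP * aP) ^ (n + 1) * (aP ^ (n + 1))⁻¹ =
          hP * (aP * ((hP * aP) ^ n * (aP ^ n)⁻¹) * aP⁻¹) := by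
        rw [pow_succ', pow_succ']; group
      rw [h5]
      exact N.mul_mem hh (hconj aP aP_mem _ ih)
  have h51 := key 51
  rw [ha_pow_51, one_mul] at h51
  have h6 : (aP ^ 51)⁻¹ = aP := by
    have h7 : aP ^ 51 = aP := by
      have : aP ^ 2 = 1 := by rw [pow_two]; exact aP_sq
      calc aP ^ 51 = (aP ^ 2) ^ 25 * aP := by rw [← pow_mul, ← pow_succ]
        _ = aP := by rw [this, one_pow, one_mul]
    rw [h7, inv_eq_iff_mul_eq_one]
    exact aP_sq
  rwa [h6] at h51

end Pool.Agent.Work.MP_a8e1ec_co
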