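import Pool.Agent.Work.MP_a8e1ec_co.Coset
import Pool.Agent.Work.MP_a8e1ec_co.Grp

set_option autoImplicit false

/-!
# The counterexample
-/

namespace Pool.Agent.Work.MP_a8e1ec_co

open Equiv

/-- The generator of order three. -/
def hE : Ga := ⟨hP, hP_mem⟩
/-- The generator of order two. -/
def aE : Ga := ⟨aP, aP_mem⟩

lemma hP_zpow_snd (k : ℤ) (x : Om) : ((hP ^ k) x).2 = x.2 := by
  let S2 : Subgroup (Perm Om) :=
    { carrier := {g | ∀ x, (g x).2 = x.2}
      one_mem' := fun x => rfl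
      mul_mem' := fun {f g} hf hg x => (hf (g x)).trans (hg x)
      inv_mem' := fun {f} hf x => by
        have := hf (f⁻¹ x)
        rw [← this]
        simp }
  have h1 : hP ∈ S2 := fun x => rfl
  exact (S2.zpow_mem h1 k) x

lemma snd_of_mem_zpowers {z : Ga} (hz : z ∈ Subgroup.zpowers hE) (x : Om) :
    ((z : Perm Om) x).2 = x.2 := by
  obtain ⟨k, rfl⟩ := Subgroup.mem_zpowers_iff.1 hz
  exact hP_zpow_snd k x

lemma data : Data hE aE where
  h3 := Subtype.ext hP_cube
  a2 := Subtype.ext aP_sq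
  na hx := by
    have := snd_of_mem_zpowers hx (13, 1)
    change (aFun (13, 1)).2 = 1 at this
    rw [aFun_thirteen] at this
    simp at this
  naha hx := by
    have := snd_of_mem_zpowers hx (13, 1)
    change (aFun (hP (aFun (13, 1)))).2 = 1 at this
    rw [aFun_thirteen] at this
    have h2 : aFun (hP (0, 2 * 1)) = (3, 2) := by decide
    rw [h2] at this
    simp at this
  gen := by
    have h1 : Subgroup.closure ((fun x : Ga => (x : Perm Om)) ⁻¹' {hP, aP}) = ⊤ :=
      Subgroup.closure_closure_coe_preimage (k := {hP, aP})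
    have h2 : ((fun x : Ga => (x : Perm Om)) ⁻¹' {hP, aP}) = {hE, aE} := by
      ext x
      constructor
      · intro hx
        rcases hx with hx | hx
        · left; exact Subtype.ext hx
        · right; exact Subtype.ext hx
      · intro hx
        rcases hx with hx | hx
        · left; rw [hx]; rfl
        · right
          have : x = aE := hx
          rw [this]; rfl
    rwa [h2] at h1

lemma rel51 : (hE * aE) ^ 51 = 1 := Subtype.ext ha_pow_51

/-- The group has no proper subgroup of finite index. -/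
lemma eq_top_of_finiteIndex (K : Subgroup Ga) (hK : K.FiniteIndex) : K = ⊤ := by
  obtain ⟨M, hM, hMn, hMK⟩ : ∃ M : Subgroup Ga, M.FiniteIndex ∧ M.Normal ∧ M ≤ K :=
    ⟨K.normalCore, inferInstance, inferInstance, K.normalCore_le⟩
  have hmem : ∀ x : Ga, (x : Perm Om) ∈ M.map Ga.subtype → x ∈ M := by
    rintro x ⟨n, hn, hn'⟩
    have : n = x := Subtype.ext hn'
    rw [← this]; exact hn
  have hconj : ∀ g ∈ Ga, ∀ n ∈ M.map Ga.subtype, g * n * g⁻¹ ∈ M.map Ga.subtype := by
    rintro g hg n ⟨m, hm, hmn⟩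
    have h1 := hMn.conj_mem m hm ⟨g, hg⟩
    refine ⟨_, h1, ?_⟩
    rw [map_mul, map_mul, map_inv, hmn]
    rfl
  have hpow : ∀ g ∈ Ga, ∃ m : ℕ, 0 < m ∧ g ^ m ∈ M.map Ga.subtype := by
    intro g hg
    obtain ⟨m, hm, -, hmM⟩ := M.exists_pow_mem_of_index_ne_zero hM.index_ne_zero ⟨g, hg⟩
    refine ⟨m, hm, _, hmM, ?_⟩
    rw [map_pow]
    rfl
  obtain ⟨h1, h2⟩ := generators_mem (M.map Ga.subtype) hconj hpow
  have h3 : hE ∈ M := hmem hE h1
  have h4 : aE ∈ M := hmem aE h2
  have h5 : M = ⊤ := by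
    rw [eq_top_iff, ← data.gen, Subgroup.closure_le]
    intro x hx
    rcases hx with hx | hx
    · rw [hx]; exact h3
    · have : x = aE := hx
      rw [this]; exact h4
  rw [eq_top_iff, ← h5]
  exact hMK

/-- The counterexample, in the form used for the frozen statement. -/
theorem counterexample :
    ∃ (V : Type) (G : SimpleGraph V), (∀ v : V, (G.neighborSet v).Finite) ∧
      (∃ S : Finset V, ∀ v : V, ∃ s ∈ S, ∃ φ : G ≃g G, φ s = v) ∧
      (∃ u v w x : V, G.Adj u v ∧ G.Adj w x ∧ G.Reachable u w ∧ s(u, v) ≠ s(w, x)) ∧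
      ∀ (C : Type) (c : Sym2 V → C),
        (∃ S : Finset V, ∀ v : V, ∃ s ∈ S, ∃ φ : G ≃g G,
          (∀ a b : V, G.Adj a b → c s(φ a, φ b) = c s(a, b)) ∧ φ s = v) →
        ∀ u v w x : V, G.Adj u v → G.Adj w x → c s(u, v) = c s(w, x) := by
  classical
  refine ⟨CV hE, cosetGraph data, ?_, ?_, ?_, ?_⟩
  · intro v
    obtain ⟨x, y, z, -, -, -, h⟩ := cubic_cosetGraph data v
    apply Set.Finite.subset (Set.toFinite {x, y, z})
    intro w hw
    have := (h w).1 hw
    simpa using this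
  · refine ⟨{((1 : Ga) : CV hE)}, fun v => ⟨_, Finset.mem_singleton_self _, ?_⟩⟩
    obtain ⟨g, rfl⟩ := QuotientGroup.mk_surjective v
    exact ⟨act data g, by rw [act_apply, mul_one]⟩
  · obtain ⟨x, y, z, hxy, -, -, h⟩ := cubic_cosetGraph data ((1 : Ga) : CV hE)
    refine ⟨_, x, _, y, (h x).2 (Or.inl rfl), (h y).2 (Or.inr (Or.inl rfl)),
      SimpleGraph.Reachable.refl _, ?_⟩
    intro heq
    have hx : (cosetGraph data).Adj ((1 : Ga) : CV hE) x := (h x).2 (Or.inl rfl)
    rcases Sym2.eq_iff.1 heq with ⟨-, h2⟩ | ⟨h1, h2⟩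
    · exact hxy h2
    · exact hx.ne h2.symm
  · rintro C c ⟨S, hS⟩ u v w x huv hwx
    exact constant_of_periodic data (n := 51) (by norm_num) rel51 eq_top_of_finiteIndex c S hS
      huv hwx

end Pool.Agent.Work.MP_a8e1ec_co
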