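import Mathlib

set_option autoImplicit false

/-!
# Cubic arc-transitive graphs which are not trees have discrete automorphism groups

and periodic edge-colourings have stabilisers of finite index.
-/

namespace Pool.Agent.Work.MP_a8e1ec_co

variable {V : Type} {G : SimpleGraph V}

/-- `f 0, ..., f s` is a walk of length `s` without backtracking. -/
structure IsArc (G : SimpleGraph V) (s : ℕ) (f : ℕ → V) : Prop where
  adj : ∀ i, i < s → G.Adj (f i) (f (i + 1))
  nb : ∀ i, i + 2 ≤ s → f i ≠ f (i + 2)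

/-- The automorphism group is transitive on `s`-arcs. -/
def Trans (G : SimpleGraph V) (s : ℕ) : Prop :=
  ∀ f g : ℕ → V, IsArc G s f → IsArc G s g → ∃ φ : G ≃g G, ∀ i ≤ s, φ (f i) = g i

/-- Every vertex has exactly three neighbours. -/
def Cubic (G : SimpleGraph V) : Prop :=
  ∀ v, ∃ x y z, x ≠ y ∧ y ≠ z ∧ x ≠ z ∧ ∀ w, G.Adj v w ↔ w = x ∨ w = y ∨ w = z

lemma Cubic.exists_third (hc : Cubic G) (v a b : V) : ∃ w, G.Adj v w ∧ w ≠ a ∧ w ≠ b := by
  obtain ⟨x, y, z, hxy, hyz, hxz, h⟩ := hc v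
  by_cases hxa : x = a
  · subst hxa
    by_cases hyb : y = b
    · subst hyb
      exact ⟨z, (h z).2 (by tauto), hxz.symm, hyz.symm⟩
    · exact ⟨y, (h y).2 (by tauto), hxy.symm, hyb⟩
  · by_cases hxb : x = b
    · subst hxb
      by_cases hya : y = a
      · subst hya
        exact ⟨z, (h z).2 (by tauto), hyz.symm, hxz.symm⟩
      · exact ⟨y, (h y).2 (by tauto), hya, hxy.symm⟩
    · exact ⟨x, (h x).2 (by tauto), hxa, hxb⟩

lemma Cubic.eq_or (hc : Cubic G) {v u w₁ w₂ w₃ : V} (hu : G.Adj v u) (h₁ : G.Adj v w₁)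
    (h₂ : G.Adj v w₂) (h₃ : G.Adj v w₃) (n₁ : w₁ ≠ u) (n₂ : w₂ ≠ u) (n₃ : w₃ ≠ u)
    (h₁₂ : w₁ ≠ w₂) : w₃ = w₁ ∨ w₃ = w₂ := by
  obtain ⟨x, y, z, hxy, hyz, hxz, h⟩ := hc v
  rw [h] at hu h₁ h₂ h₃
  rcases hu with rfl | rfl | rfl <;> rcases h₁ with rfl | rfl | rfl <;>
    rcases h₂ with rfl | rfl | rfl <;> rcases h₃ with rfl | rfl | rfl <;> simp_all

/-- Extending an arc at its end. -/
def ext (s : ℕ) (f : ℕ → V) (w : V) : ℕ → V := fun i => if i ≤ s then f i else w

lemma ext_le {s i : ℕ} (h : i ≤ s) (f : ℕ → V) (w : V) : ext s f w i = f i := by simp [ext, h]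
lemma ext_last (s : ℕ) (f : ℕ → V) (w : V) : ext s f w (s + 1) = w := by simp [ext]

lemma IsArc.ext {s : ℕ} (hs : 1 ≤ s) {f : ℕ → V} (hf : IsArc G s f) {w : V}
    (hw : G.Adj (f s) w) (hn : w ≠ f (s - 1)) : IsArc G (s + 1) (ext s f w) where
  adj i hi := by
    rcases Nat.lt_succ_iff_lt_or_eq.1 hi with h | h
    · rw [ext_le h.le, ext_le h]
      exact hf.adj i h
    · subst h
      rw [ext_le le_rfl, ext_last]
      exact hw
  nb i hi := by
    rcases Nat.lt_or_ge (i + 1) s with h | h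
    · rw [ext_le (by omega), ext_le (by omega)]
      exact hf.nb i h
    · have hi' : i + 2 = s + 1 := by omega
      rw [ext_le (by omega), hi', ext_last]
      have : i = s - 1 := by omega
      rw [this]
      exact hn.symm

lemma IsArc.mono {s t : ℕ} (h : s ≤ t) {f : ℕ → V} (hf : IsArc G t f) : IsArc G s f where
  adj i hi := hf.adj i (by omega)
  nb i hi := hf.nb i (by omega)

/-- If a symmetric cubic graph is not `(s+1)`-arc-transitive then the stabiliser of an `s`-arc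
fixes every extension of the arc. -/
lemma fix_ext (hc : Cubic G) {s : ℕ} (hs : 1 ≤ s) (hT : Trans G s) (hnT : ¬ Trans G (s + 1))
    {f : ℕ → V} (hf : IsArc G s f) (φ : G ≃g G) (hφ : ∀ i ≤ s, φ (f i) = f i) {w : V}
    (hw : G.Adj (f s) w) (hn : w ≠ f (s - 1)) : φ w = w := by
  by_contra hne
  apply hnT
  intro p q hp hq
  have hφw : G.Adj (f s) (φ w) := by
    have := φ.map_rel_iff.2 hw
    rwa [hφ s le_rfl] at this
  have hφn : φ w ≠ f (s - 1) := by
    intro h
    have h1 := hφ (s - 1) (by omega)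
    rw [← h1] at h
    exact hn (φ.injective h)
  have hprev : G.Adj (f s) (f (s - 1)) := by
    have := hf.adj (s - 1) (by omega)
    have h1 : s - 1 + 1 = s := by omega
    rw [h1] at this
    exact this.symm
  -- move an `(s+1)`-arc so that its first part is `f`
  have key : ∀ p : ℕ → V, IsArc G (s + 1) p → ∃ ψ : G ≃g G, (∀ i ≤ s, ψ (p i) = f i) ∧
      ψ (p (s + 1)) = w := by
    intro p hp
    obtain ⟨ψ, hψ⟩ := hT p f (hp.mono (by omega)) hf
    have h1 : G.Adj (f s) (ψ (p (s + 1))) := by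
      have := ψ.map_rel_iff.2 (hp.adj s (by omega))
      rwa [hψ s le_rfl] at this
    have h2 : ψ (p (s + 1)) ≠ f (s - 1) := by
      intro h
      have h3 := hψ (s - 1) (by omega)
      rw [← h3] at h
      have h4 := hp.nb (s - 1) (by omega)
      have h5 : s - 1 + 2 = s + 1 := by omega
      rw [h5] at h4
      exact h4 (ψ.injective h).symm
    rcases hc.eq_or hprev hw hφw h1 hn hφn h2 (Ne.symm hne) with h | h
    · exact ⟨ψ, hψ, h⟩
    · refine ⟨ψ.trans φ.symm, fun i hi => ?_, ?_⟩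
      · change φ.symm (ψ (p i)) = f i
        rw [hψ i hi, RelIso.symm_apply_eq, hφ i hi]
      · change φ.symm (ψ (p (s + 1))) = w
        rw [h, RelIso.symm_apply_apply]
  obtain ⟨ψ₁, h₁, h₁'⟩ := key p hp
  obtain ⟨ψ₂, h₂, h₂'⟩ := key q hq
  refine ⟨ψ₁.trans ψ₂.symm, fun i hi => ?_⟩
  change ψ₂.symm (ψ₁ (p i)) = q i
  rw [RelIso.symm_apply_eq]
  rcases Nat.lt_or_ge s i with h | h
  · have : i = s + 1 := by omega
    subst this
    rw [h₁', h₂']
  · rw [h₁ i h, h₂ i h]

/-- The arc traversed backwards. -/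
lemma IsArc.rev {s : ℕ} {f : ℕ → V} (hf : IsArc G s f) : IsArc G s (fun i => f (s - i)) where
  adj i hi := by
    have := hf.adj (s - (i + 1)) (by omega)
    have h1 : s - (i + 1) + 1 = s - i := by omega
    rw [h1] at this
    exact this.symm
  nb i hi := by
    have := hf.nb (s - (i + 2)) (by omega)
    have h1 : s - (i + 2) + 2 = s - i := by omega
    rw [h1] at this
    exact this.symm

lemma IsArc.shift {s : ℕ} {f : ℕ → V} (hf : IsArc G (s + 1) f) :
    IsArc G s (fun i => f (i + 1)) where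
  adj i hi := hf.adj (i + 1) (by omega)
  nb i hi := hf.nb (i + 1) (by omega)

/-- The stabiliser of an `s`-arc is trivial. -/
theorem rigid (hc : Cubic G) (hconn : G.Connected) {s : ℕ} (hs : 1 ≤ s) (hT : Trans G s)
    (hnT : ¬ Trans G (s + 1)) {f : ℕ → V} (hf : IsArc G s f) (φ : G ≃g G)
    (hφ : ∀ i ≤ s, φ (f i) = f i) (v : V) : φ v = v := by
  -- vertices at the end of a fixed arc
  have step : ∀ v u : V, (∃ g, IsArc G s g ∧ (∀ i ≤ s, φ (g i) = g i) ∧ g s = v) → G.Adj v u →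
      ∃ g, IsArc G s g ∧ (∀ i ≤ s, φ (g i) = g i) ∧ g s = u := by
    rintro v u ⟨g, hg, hφg, rfl⟩ hvu
    by_cases hu : u = g (s - 1)
    · subst hu
      -- extend backwards
      obtain ⟨x, hx, hx1, -⟩ := hc.exists_third (g 0) (g 1) (g 1)
      have hr := hg.rev
      have hr0 : g (s - s) = g 0 := by rw [Nat.sub_self]
      have hφr : ∀ i ≤ s, φ (g (s - i)) = g (s - i) := fun i _ => hφg _ (by omega)
      have hxr : G.Adj ((fun i => g (s - i)) s) x := by
        change G.Adj (g (s - s)) x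
        rw [hr0]; exact hx
      have hxn : x ≠ (fun i => g (s - i)) (s - 1) := by
        change x ≠ g (s - (s - 1))
        have : s - (s - 1) = 1 := by omega
        rw [this]; exact hx1
      have hφx := fix_ext hc hs hT hnT hr φ hφr hxr hxn
      have hA := (hr.ext hs hxr hxn).shift.rev
      refine ⟨_, hA, ?_, ?_⟩
      · intro i hi
        change φ (ext s (fun i => g (s - i)) x (s - i + 1)) = ext s (fun i => g (s - i)) x (s - i + 1)
        rcases Nat.eq_zero_or_pos i with rfl | h0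
        · rw [Nat.sub_zero, ext_last]; exact hφx
        · rw [ext_le (by omega)]
          exact hφr _ (by omega)
      · change ext s (fun i => g (s - i)) x (s - s + 1) = g (s - 1)
        rw [Nat.sub_self, ext_le (by omega)]
    · have hφu := fix_ext hc hs hT hnT hg φ hφg hvu hu
      have hA := (hg.ext hs hvu hu).shift
      refine ⟨_, hA, ?_, ?_⟩
      · intro i hi
        change φ (ext s g u (i + 1)) = ext s g u (i + 1)
        rcases Nat.lt_or_ge i s with h | h
        · rw [ext_le h]; exact hφg _ h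
        · have : i = s := by omega
          subst this
          rw [ext_last]; exact hφu
      · exact ext_last s g u
  have all : ∀ v, ∃ g, IsArc G s g ∧ (∀ i ≤ s, φ (g i) = g i) ∧ g s = v := by
    intro v
    obtain ⟨p⟩ := hconn.preconnected (f s) v
    have base : ∃ g, IsArc G s g ∧ (∀ i ≤ s, φ (g i) = g i) ∧ g s = f s := ⟨f, hf, hφ, rfl⟩
    generalize f s = a at p base
    induction p with
    | nil => exact base
    | cons h p ih => exact ih (step _ _ base h)
  obtain ⟨g, -, hg, rfl⟩ := all v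
  exact hg s le_rfl

lemma exists_level {n : ℕ} (h1 : Trans G 1) (hn : ¬ Trans G n) (hn1 : 1 ≤ n) :
    ∃ s, 1 ≤ s ∧ Trans G s ∧ ¬ Trans G (s + 1) := by
  induction n with
  | zero => omega
  | succ n ih =>
    rcases Nat.eq_zero_or_pos n with rfl | h0
    · exact absurd h1 hn
    · by_cases h : Trans G n
      · exact ⟨n, h0, h, hn⟩
      · exact ih h h0

/-- A cubic graph with a closed walk without backtracking is not `n`-arc-transitive. -/
lemma not_trans (hc : Cubic G) {n : ℕ} (hn : 2 ≤ n) {f : ℕ → V} (hf : IsArc G n f)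
    (hcl : f 0 = f n) : ¬ Trans G n := by
  intro hT
  obtain ⟨w, hw, hw1, hw2⟩ := hc.exists_third (f (n - 1)) (f (n - 2)) (f n)
  obtain ⟨m, rfl⟩ : ∃ m, n = m + 1 := ⟨n - 1, by omega⟩
  have hm : m + 1 - 1 = m := by omega
  rw [hm] at hw
  have hm2 : m + 1 - 2 = m - 1 := by omega
  rw [hm2] at hw1
  have hA := (hf.mono (Nat.le_succ m)).ext (by omega) hw hw1
  obtain ⟨φ, hφ⟩ := hT f _ hf hA
  have h0 := hφ 0 (by omega)
  have h1 := hφ (m + 1) le_rfl
  rw [ext_le (by omega)] at h0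
  rw [ext_last] at h1
  apply hw2
  rw [← h1, ← hcl, h0]

/-- The subgroup of colour-preserving elements has finite index. -/
theorem finite_index_of_periodic {Γ : Type} [Group Γ] (ρ : Γ →* (G ≃g G)) (hc : Cubic G)
    (hconn : G.Connected) {s : ℕ} (hs : 1 ≤ s) (hT : Trans G s) (hnT : ¬ Trans G (s + 1))
    {f : ℕ → V} (hf : IsArc G s f) {C : Type} (c : Sym2 V → C) (S : Finset V)
    (hS : ∀ v : V, ∃ x ∈ S, ∃ φ : G ≃g G,
      (∀ a b : V, G.Adj a b → c s(φ a, φ b) = c s(a, b)) ∧ φ x = v) :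
    ∃ K : Subgroup Γ, K.FiniteIndex ∧
      ∀ γ ∈ K, ∀ a b : V, G.Adj a b → c s(ρ γ a, ρ γ b) = c s(a, b) := by
  classical
  -- the colour-preserving automorphisms
  let L : Subgroup (G ≃g G) :=
    { carrier := {φ | ∀ a b : V, G.Adj a b → c s(φ a, φ b) = c s(a, b)}
      one_mem' := fun a b _ => rfl
      mul_mem' := by
        intro φ ψ hφ hψ a b hab
        have h1 : G.Adj (ψ a) (ψ b) := ψ.map_rel_iff.2 hab
        exact (hφ _ _ h1).trans (hψ a b hab)
      inv_mem' := by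
        intro φ hφ a b hab
        have h1 : G.Adj (φ⁻¹ a) (φ⁻¹ b) := (φ⁻¹ : G ≃g G).map_rel_iff.2 hab
        have h2 := hφ _ _ h1
        have h3 : ∀ x, φ (φ⁻¹ x) = x := fun x => φ.apply_symm_apply x
        rw [h3, h3] at h2
        exact h2.symm }
  refine ⟨L.comap ρ, ?_, fun γ hγ => hγ⟩
  -- balls around `S`
  have hfin : ∀ v, (G.neighborSet v).Finite := by
    intro v
    obtain ⟨x, y, z, -, -, -, h⟩ := hc v
    apply Set.Finite.subset (Set.toFinite {x, y, z})
    intro w hw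
    have := (h w).1 hw
    simpa using this
  let B : ℕ → Set V := fun n => Nat.rec (S : Set V) (fun _ T => ⋃ v ∈ T, G.neighborSet v) n
  have hB : ∀ n, (B n).Finite := by
    intro n
    induction n with
    | zero => exact S.finite_toSet
    | succ n ih => exact ih.biUnion fun v _ => hfin v
  have harc : ∀ g : ℕ → V, IsArc G s g → g 0 ∈ S → ∀ i ≤ s, g i ∈ B i := by
    intro g hg h0 i
    induction i with
    | zero => intro _; exact h0
    | succ i ih =>
      intro hi
      exact Set.mem_biUnion (ih (by omega)) (hg.adj i hi)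
  -- for each group element choose a colour-preserving correction
  have hchoice : ∀ γ : Γ, ∃ φ ∈ L, φ⁻¹ (ρ γ (f 0)) ∈ S := by
    intro γ
    obtain ⟨x, hx, φ, hφ, hφx⟩ := hS (ρ γ (f 0))
    refine ⟨φ, hφ, ?_⟩
    rw [← hφx]
    have : φ⁻¹ (φ x) = x := φ.symm_apply_apply x
    rw [this]; exact hx
  choose φ hφL hφS using hchoice
  let F : Γ → (Fin (s + 1) → V) := fun γ i => (φ γ)⁻¹ (ρ γ (f i))
  have hF : ∀ γ, F γ ∈ Set.pi Set.univ (fun i : Fin (s + 1) => B i) := by
    intro γ i _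
    have hg : IsArc G s (fun i => (φ γ)⁻¹ (ρ γ (f i))) :=
      { adj := fun i hi => ((φ γ)⁻¹ : G ≃g G).map_rel_iff.2 ((ρ γ).map_rel_iff.2 (hf.adj i hi))
        nb := fun i hi h => hf.nb i hi ((ρ γ).injective (((φ γ)⁻¹ : G ≃g G).injective h)) }
    exact harc _ hg (hφS γ) i (by omega)
  have hFeq : ∀ γ δ, F γ = F δ → γ * δ⁻¹ ∈ L.comap ρ := by
    intro γ δ h
    have h1 : ∀ v, (((φ δ)⁻¹ * ρ δ)⁻¹ * ((φ γ)⁻¹ * ρ γ)) v = v := by
      apply rigid hc hconn hs hT hnT hf
      intro i hi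
      have h2 := congrFun h ⟨i, by omega⟩
      change (((φ δ)⁻¹ * ρ δ)⁻¹ : G ≃g G) ((φ γ)⁻¹ (ρ γ (f i))) = f i
      change (φ γ)⁻¹ (ρ γ (f i)) = (φ δ)⁻¹ (ρ δ (f i)) at h2
      rw [h2]
      exact ((φ δ)⁻¹ * ρ δ).symm_apply_apply (f i)
    have h3 : ((φ δ)⁻¹ * ρ δ)⁻¹ * ((φ γ)⁻¹ * ρ γ) = 1 := RelIso.ext h1
    have h4 : (φ γ)⁻¹ * ρ γ = (φ δ)⁻¹ * ρ δ := by
      rw [inv_mul_eq_one] at h3
      exact h3.symm
    have h5 : ρ (γ * δ⁻¹) = φ γ * (φ δ)⁻¹ := by
      rw [map_mul, map_inv]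
      have h6 : ρ γ = φ γ * ((φ δ)⁻¹ * ρ δ) := by rw [← h4]; group
      rw [h6]; group
    rw [Subgroup.mem_comap, h5]
    exact L.mul_mem (hφL γ) (L.inv_mem (hφL δ))
  have hfinQ : Finite (Γ ⧸ L.comap ρ) := by
    have hfinB : (Set.pi Set.univ (fun i : Fin (s + 1) => B i)).Finite :=
      Set.Finite.pi fun i => hB i
    haveI := hfinB.to_subtype
    apply Finite.of_injective (fun q : Γ ⧸ L.comap ρ =>
      (⟨F (q.out)⁻¹, hF _⟩ : Set.pi Set.univ (fun i : Fin (s + 1) => B i)))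
    intro q₁ q₂ h
    have h1 := hFeq _ _ (congrArg Subtype.val h)
    rw [inv_inv] at h1
    have h2 : ((q₁.out : Γ) : Γ ⧸ L.comap ρ) = ((q₂.out : Γ) : Γ ⧸ L.comap ρ) :=
      QuotientGroup.eq.2 h1
    simpa using h2
  exact Subgroup.finiteIndex_of_finite_quotient

end Pool.Agent.Work.MP_a8e1ec_co
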