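import Pool.Agent.Work.MP_a8e1ec_co.Arcs

set_option autoImplicit false

/-!
# The cubic coset graph of a group generated by an element of order three and an involution
-/

namespace Pool.Agent.Work.MP_a8e1ec_co

section

variable {Γ : Type} [Group Γ] (h a : Γ)

/-- The vertices of the coset graph: left cosets of the subgroup generated by `h`. -/
abbrev CV : Type := Γ ⧸ Subgroup.zpowers h

/-- The data used for the coset graph: `h` has order three, `a` has order two, `a` does not
normalise the subgroup generated by `h`, and `h`, `a` generate the group. -/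
structure Data : Prop where
  h3 : h ^ 3 = 1
  a2 : a * a = 1
  na : a ∉ Subgroup.zpowers h
  naha : a * h * a ∉ Subgroup.zpowers h
  gen : Subgroup.closure {h, a} = ⊤

variable {h a}

/-- The cubic coset graph: `g H` and `g a H` are adjacent. -/
def cosetGraph (D : Data h a) : SimpleGraph (CV h) where
  Adj u v := ∃ g : Γ, (g : CV h) = u ∧ ((g * a : Γ) : CV h) = v
  symm := ⟨by
    rintro u v ⟨g, rfl, rfl⟩
    exact ⟨g * a, rfl, by rw [mul_assoc, D.a2, mul_one]⟩⟩
  loopless := ⟨by
    rintro u ⟨g, rfl, hg⟩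
    have := QuotientGroup.eq.1 hg
    apply D.na
    have h1 := (Subgroup.zpowers h).inv_mem this
    simpa [mul_assoc] using h1⟩

lemma Data.mem_zpowers (D : Data h a) {x : Γ} (hx : x ∈ Subgroup.zpowers h) :
    x = 1 ∨ x = h ∨ x = h * h := by
  obtain ⟨k, rfl⟩ := Subgroup.mem_zpowers_iff.1 hx
  have h3 : h ^ (3 : ℤ) = 1 := by exact_mod_cast D.h3
  have key : h ^ k = h ^ (k % 3) := by
    conv_lhs => rw [← Int.mul_ediv_add_emod k 3]
    rw [zpow_add, zpow_mul, h3, one_zpow, one_mul]
  rw [key]
  have h0 := Int.emod_nonneg k (show (3 : ℤ) ≠ 0 by norm_num)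
  have h1 := Int.emod_lt_of_pos k (show (0 : ℤ) < 3 by norm_num)
  have h2 : k % 3 = 0 ∨ k % 3 = 1 ∨ k % 3 = 2 := by omega
  rcases h2 with h2 | h2 | h2
  · left; rw [h2, zpow_zero]
  · right; left; rw [h2, zpow_one]
  · right; right; rw [h2]
    exact zpow_two h

lemma Data.nahha (D : Data h a) : a * (h * h) * a ∉ Subgroup.zpowers h := by
  intro hx
  apply D.naha
  have h1 := (Subgroup.zpowers h).mul_mem hx hx
  have h2 : a * (h * h) * a * (a * (h * h) * a) = a * h * a := by
    have h4 : h * h * (h * h) = h := by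
      have := D.h3
      rw [pow_succ, pow_two] at this
      calc h * h * (h * h) = (h * h * h) * h := by group
        _ = h := by rw [this, one_mul]
    calc a * (h * h) * a * (a * (h * h) * a) = a * (h * h) * (a * a) * (h * h) * a := by group
      _ = a * (h * h * (h * h)) * a := by rw [D.a2]; group
      _ = a * h * a := by rw [h4]
  rwa [h2] at h1

lemma mk_mul_h (g : Γ) : ((g * h : Γ) : CV h) = (g : CV h) := by
  apply QuotientGroup.eq.2
  have : (g * h)⁻¹ * g = h⁻¹ := by group
  rw [this]
  exact (Subgroup.zpowers h).inv_mem (Subgroup.mem_zpowers h)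

lemma cubic_cosetGraph (D : Data h a) : Cubic (cosetGraph D) := by
  intro v
  obtain ⟨g, rfl⟩ := QuotientGroup.mk_surjective v
  have hne : ∀ x y : Γ, a * (x⁻¹ * y) * a ∉ Subgroup.zpowers h →
      ((g * x * a : Γ) : CV h) ≠ ((g * y * a : Γ) : CV h) := by
    intro x y hn heq
    apply hn
    have h1 := QuotientGroup.eq.1 heq
    have ha : a⁻¹ = a := inv_eq_of_mul_eq_one_left D.a2
    have h2 : (g * x * a)⁻¹ * (g * y * a) = a⁻¹ * (x⁻¹ * y) * a := by group
    rwa [h2, ha] at h1
  refine ⟨((g * 1 * a : Γ) : CV h), ((g * h * a : Γ) : CV h), ((g * (h * h) * a : Γ) : CV h),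
    hne _ _ ?_, hne _ _ ?_, hne _ _ ?_, ?_⟩
  · rw [inv_one, one_mul]; exact D.naha
  · have : h⁻¹ * (h * h) = h := by group
    rw [this]; exact D.naha
  · rw [inv_one, one_mul]; exact D.nahha
  · intro w
    constructor
    · rintro ⟨g', hg', rfl⟩
      have h1 := QuotientGroup.eq.1 hg'.symm
      rcases D.mem_zpowers h1 with h2 | h2 | h2
      · left
        have : g' = g * 1 := by rw [mul_one]; exact (inv_mul_eq_one.1 h2).symm
        rw [this]
      · right; left
        have : g' = g * h := by rw [← h2]; group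
        rw [this]
      · right; right
        have : g' = g * (h * h) := by rw [← h2]; group
        rw [this]
    · rintro (rfl | rfl | rfl)
      · exact ⟨g * 1, by rw [mul_one], rfl⟩
      · exact ⟨g * h, mk_mul_h g, rfl⟩
      · exact ⟨g * (h * h), by rw [← mul_assoc, mk_mul_h, mk_mul_h], rfl⟩

lemma connected_cosetGraph (D : Data h a) : (cosetGraph D).Connected := by
  have key : ∀ g : Γ, (cosetGraph D).Reachable ((1 : Γ) : CV h) (g : CV h) := by
    intro g
    have hg : g ∈ Subgroup.closure {h, a} := by rw [D.gen]; trivial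
    have hstep : ∀ x : Γ, (cosetGraph D).Reachable ((1 : Γ) : CV h) (x : CV h) →
        (cosetGraph D).Reachable ((1 : Γ) : CV h) ((x * a : Γ) : CV h) := fun x hx =>
      hx.trans (SimpleGraph.Adj.reachable ⟨x, rfl, rfl⟩)
    have ha : a⁻¹ = a := inv_eq_of_mul_eq_one_left D.a2
    induction hg using Subgroup.closure_induction_right with
    | one => exact SimpleGraph.Reachable.refl _
    | mul_right x hx y hy ih =>
      rcases hy with rfl | hy
      · rw [mk_mul_h]; exact ih
      · rw [Set.mem_singleton_iff.1 hy]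
        exact hstep x ih
    | mul_inv_cancel x hx y hy ih =>
      rcases hy with rfl | hy
      · have : ((x * y⁻¹ : Γ) : CV y) = (x : CV y) := by
          conv_rhs => rw [← inv_mul_cancel_right x y, mk_mul_h]
        rw [this]; exact ih
      · rw [Set.mem_singleton_iff.1 hy, ha]
        exact hstep x ih
  haveI : Nonempty (CV h) := ⟨((1 : Γ) : CV h)⟩
  refine ⟨fun u v => ?_⟩
  obtain ⟨g, rfl⟩ := QuotientGroup.mk_surjective u
  obtain ⟨g', rfl⟩ := QuotientGroup.mk_surjective v
  exact (key g).symm.trans (key g')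

/-- The action of the group on its coset graph. -/
def act (D : Data h a) : Γ →* (cosetGraph D ≃g cosetGraph D) where
  toFun γ :=
    { toEquiv := MulAction.toPerm γ
      map_rel_iff' := by
        intro u v
        constructor
        · rintro ⟨g, hg1, hg2⟩
          refine ⟨γ⁻¹ * g, ?_, ?_⟩
          · have : γ⁻¹ • (g : CV h) = γ⁻¹ • (γ • u) := by rw [hg1]; rfl
            rw [inv_smul_smul] at this
            exact this
          · have : γ⁻¹ • ((g * a : Γ) : CV h) = γ⁻¹ • (γ • v) := by rw [hg2]; rfl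
            rw [inv_smul_smul] at this
            rw [mul_assoc]
            exact this
        · rintro ⟨g, rfl, rfl⟩
          exact ⟨γ * g, rfl, by rw [mul_assoc]; rfl⟩ }
  map_one' := by
    ext u
    exact one_smul Γ u
  map_mul' γ δ := by
    ext u
    exact mul_smul γ δ u

lemma act_apply (D : Data h a) (γ g : Γ) : act D γ (g : CV h) = ((γ * g : Γ) : CV h) := rfl

lemma act_arc (D : Data h a) {u v u' v' : CV h} (huv : (cosetGraph D).Adj u v)
    (huv' : (cosetGraph D).Adj u' v') : ∃ γ : Γ, act D γ u = u' ∧ act D γ v = v' := by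
  obtain ⟨g, rfl, rfl⟩ := huv
  obtain ⟨g', rfl, rfl⟩ := huv'
  refine ⟨g' * g⁻¹, ?_, ?_⟩
  · rw [act_apply, inv_mul_cancel_right]
  · rw [act_apply, ← mul_assoc, inv_mul_cancel_right]

lemma trans_one (D : Data h a) : Trans (cosetGraph D) 1 := by
  intro f g hf hg
  obtain ⟨γ, h1, h2⟩ := act_arc D (hf.adj 0 (by omega)) (hg.adj 0 (by omega))
  refine ⟨act D γ, fun i hi => ?_⟩
  rcases Nat.le_one_iff_eq_zero_or_eq_one.1 hi with rfl | rfl
  · exact h1
  · exact h2

/-- The closed walk without backtracking given by a relation `(ha)^n = 1`. -/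
lemma closed_arc (D : Data h a) (n : ℕ) :
    IsArc (cosetGraph D) n (fun i => (((h * a) ^ i : Γ) : CV h)) where
  adj i _ := ⟨(h * a) ^ i * h, mk_mul_h _, by
    change (((h * a) ^ i * h * a : Γ) : CV h) = (((h * a) ^ (i + 1) : Γ) : CV h)
    rw [pow_succ, mul_assoc]⟩
  nb i _ heq := by
    have h1 := QuotientGroup.eq.1 heq
    have h2 : ((h * a) ^ i)⁻¹ * (h * a) ^ (i + 2) = h * (a * h * a) := by
      rw [pow_add, inv_mul_cancel_left, pow_two]; group
    rw [h2] at h1
    apply D.naha
    have h3 := (Subgroup.zpowers h).mul_mem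
      ((Subgroup.zpowers h).inv_mem (Subgroup.mem_zpowers h)) h1
    rwa [inv_mul_cancel_left] at h3

/-- **Main graph-theoretic result.** If the group has a relation `(ha)^n = 1`, `n ≥ 2`, and no
proper subgroup of finite index, then all periodic edge-colourings of the coset graph are
constant. -/
theorem constant_of_periodic (D : Data h a) {n : ℕ} (hn : 2 ≤ n) (hrel : (h * a) ^ n = 1)
    (hfi : ∀ K : Subgroup Γ, K.FiniteIndex → K = ⊤) {C : Type} (c : Sym2 (CV h) → C)
    (S : Finset (CV h))
    (hS : ∀ v : CV h, ∃ x ∈ S, ∃ φ : cosetGraph D ≃g cosetGraph D,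
      (∀ a b, (cosetGraph D).Adj a b → c s(φ a, φ b) = c s(a, b)) ∧ φ x = v)
    {u v w x : CV h} (huv : (cosetGraph D).Adj u v) (hwx : (cosetGraph D).Adj w x) :
    c s(u, v) = c s(w, x) := by
  have hnT : ¬ Trans (cosetGraph D) n := not_trans (cubic_cosetGraph D) hn (closed_arc D n)
    (by simp [hrel])
  obtain ⟨s, hs, hT, hnT'⟩ := exists_level (trans_one D) hnT (by omega)
  obtain ⟨K, hK, hKc⟩ := finite_index_of_periodic (act D) (cubic_cosetGraph D)
    (connected_cosetGraph D) hs hT hnT' (closed_arc D s) c S hS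
  obtain ⟨γ, h1, h2⟩ := act_arc D huv hwx
  have h3 := hKc γ (by rw [hfi K hK]; trivial) u v huv
  rw [h1, h2] at h3
  exact h3.symm

end

end Pool.Agent.Work.MP_a8e1ec_co
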