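import Pool.Agent.Work.MP_a8e1ec_co.Final

set_option autoImplicit false

/-!
# Quasi-transitive subgroups of the automorphism group of the counterexample
-/

namespace Pool.Agent.Work.MP_a8e1ec_co

/-- A subgroup of the automorphism group with finitely many orbits of vertices has a preimage of
finite index. -/
theorem finite_index_of_quasiTransitive {V : Type} {G : SimpleGraph V} {Γ : Type} [Group Γ]
    (ρ : Γ →* (G ≃g G)) (hc : Cubic G)
    (hconn : G.Connected) {s : ℕ} (hs : 1 ≤ s) (hT : Trans G s) (hnT : ¬ Trans G (s + 1))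
    {f : ℕ → V} (hf : IsArc G s f) (L : Subgroup (G ≃g G)) (S : Finset V)
    (hS : ∀ v : V, ∃ x ∈ S, ∃ φ ∈ L, φ x = v) :
    (L.comap ρ).FiniteIndex := by
  classical
  -- balls around `S`
  have hfin : ∀ v, (G.neighborSet v).Finite := by
    intro v
    obtain ⟨x, y, z, -, -, -, h⟩ := hc v
    apply Set.Finite.subset (Set.toFinite {x, y, z})
    intro w hw
    have := (h w).1 hw
    simpa using this
  let B : ℕ → Set V := fun n => Nat.rec (S : Set V) (fun _ T => ⋃ v ∈ T, G.neighborSet v) n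
  have hB : ∀ n, (B n).Finite := by
    intro n
    induction n with
    | zero => exact S.finite_toSet
    | succ n ih => exact ih.biUnion fun v _ => hfin v
  have harc : ∀ g : ℕ → V, IsArc G s g → g 0 ∈ S → ∀ i ≤ s, g i ∈ B i := by
    intro g hg h0 i
    induction i with
    | zero => intro _; exact h0
    | succ i ih =>
      intro hi
      exact Set.mem_biUnion (ih (by omega)) (hg.adj i hi)
  -- for each group element choose a correction in the subgroup
  have hchoice : ∀ γ : Γ, ∃ φ ∈ L, φ⁻¹ (ρ γ (f 0)) ∈ S := by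
    intro γ
    obtain ⟨x, hx, φ, hφ, hφx⟩ := hS (ρ γ (f 0))
    refine ⟨φ, hφ, ?_⟩
    rw [← hφx]
    have : φ⁻¹ (φ x) = x := φ.symm_apply_apply x
    rw [this]; exact hx
  choose φ hφL hφS using hchoice
  let F : Γ → (Fin (s + 1) → V) := fun γ i => (φ γ)⁻¹ (ρ γ (f i))
  have hF : ∀ γ, F γ ∈ Set.pi Set.univ (fun i : Fin (s + 1) => B i) := by
    intro γ i _
    have hg : IsArc G s (fun i => (φ γ)⁻¹ (ρ γ (f i))) :=
      { adj := fun i hi => ((φ γ)⁻¹ : G ≃g G).map_rel_iff.2 ((ρ γ).map_rel_iff.2 (hf.adj i hi))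
        nb := fun i hi h => hf.nb i hi ((ρ γ).injective (((φ γ)⁻¹ : G ≃g G).injective h)) }
    exact harc _ hg (hφS γ) i (by omega)
  have hFeq : ∀ γ δ, F γ = F δ → γ * δ⁻¹ ∈ L.comap ρ := by
    intro γ δ h
    have h1 : ∀ v, (((φ δ)⁻¹ * ρ δ)⁻¹ * ((φ γ)⁻¹ * ρ γ)) v = v := by
      apply rigid hc hconn hs hT hnT hf
      intro i hi
      have h2 := congrFun h ⟨i, by omega⟩
      change (((φ δ)⁻¹ * ρ δ)⁻¹ : G ≃g G) ((φ γ)⁻¹ (ρ γ (f i))) = f i
      change (φ γ)⁻¹ (ρ γ (f i)) = (φ δ)⁻¹ (ρ δ (f i)) at h2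
      rw [h2]
      exact ((φ δ)⁻¹ * ρ δ).symm_apply_apply (f i)
    have h3 : ((φ δ)⁻¹ * ρ δ)⁻¹ * ((φ γ)⁻¹ * ρ γ) = 1 := RelIso.ext h1
    have h4 : (φ γ)⁻¹ * ρ γ = (φ δ)⁻¹ * ρ δ := by
      rw [inv_mul_eq_one] at h3
      exact h3.symm
    have h5 : ρ (γ * δ⁻¹) = φ γ * (φ δ)⁻¹ := by
      rw [map_mul, map_inv]
      have h6 : ρ γ = φ γ * ((φ δ)⁻¹ * ρ δ) := by rw [← h4]; group
      rw [h6]; group
    rw [Subgroup.mem_comap, h5]
    exact L.mul_mem (hφL γ) (L.inv_mem (hφL δ))
  have hfinQ : Finite (Γ ⧸ L.comap ρ) := by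
    have hfinB : (Set.pi Set.univ (fun i : Fin (s + 1) => B i)).Finite :=
      Set.Finite.pi fun i => hB i
    haveI := hfinB.to_subtype
    apply Finite.of_injective (fun q : Γ ⧸ L.comap ρ =>
      (⟨F (q.out)⁻¹, hF _⟩ : Set.pi Set.univ (fun i : Fin (s + 1) => B i)))
    intro q₁ q₂ h
    have h1 := hFeq _ _ (congrArg Subtype.val h)
    rw [inv_inv] at h1
    have h2 : ((q₁.out : Γ) : Γ ⧸ L.comap ρ) = ((q₂.out : Γ) : Γ ⧸ L.comap ρ) :=
      QuotientGroup.eq.2 h1
    simpa using h2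
  exact Subgroup.finiteIndex_of_finite_quotient

/-- In the coset graph of the group `Ga`, every subgroup of the automorphism group with finitely
many orbits of vertices contains the image of `Ga`. -/
theorem act_mem_of_quasiTransitive (L : Subgroup (cosetGraph data ≃g cosetGraph data))
    (S : Finset (CV hE)) (hS : ∀ v : CV hE, ∃ x ∈ S, ∃ φ ∈ L, φ x = v) (γ : Ga) :
    act data γ ∈ L := by
  have hnT : ¬ Trans (cosetGraph data) 51 :=
    not_trans (cubic_cosetGraph data) (by norm_num) (closed_arc data 51) (by simp [rel51])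
  obtain ⟨s, hs, hT, hnT'⟩ := exists_level (trans_one data) hnT (by omega)
  have hfi := finite_index_of_quasiTransitive (act data) (cubic_cosetGraph data)
    (connected_cosetGraph data) hs hT hnT' (closed_arc data s) L S hS
  have htop := eq_top_of_finiteIndex _ hfi
  have : γ ∈ L.comap (act data) := by rw [htop]; trivial
  exact this

end Pool.Agent.Work.MP_a8e1ec_co
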